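import Pool.Agent.Q78.NN.Pack

/-!
# The rank of a matrix with 217 columns, modulo 65521

The data: five binary sextics `g_j` (combinations of `(X + a) ^ 6`, `a < 7`) and 38 linear forms in
five variables.
-/

set_option autoImplicit false

namespace Pool.Agent.Q78.NN

open Polynomial

/-- the coefficients of the five sextics -/
def W2L : List (List ℕ) :=
  [[0, 1, 0, 0, 0, 1, 1], [1, 0, 1, 1, 0, 0, 1], [1, 1, 1, 1, 1, 0, 1], [1, 0, 1, 0, 0, 0, 1],
    [0, 0, 0, 0, 0, 0, 1]]

/-- the coefficients of the linear forms -/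
def lamL : List (List ℕ) :=
  [[0, 1, 2, 1, 0], [1, 2, 0, 1, 1], [2, 0, 0, 1, 1], [2, 1, 2, 0, 1], [2, 1, 2, 2, 0],
    [0, 0, 2, 1, 1], [1, 1, 2, 2, 1], [2, 1, 0, 0, 1], [0, 0, 0, 2, 1], [0, 1, 0, 0, 1],
    [0, 1, 1, 1, 0], [1, 0, 2, 2, 0], [2, 2, 2, 1, 0], [1, 1, 1, 0, 2], [0, 1, 2, 0, 0],
    [1, 0, 2, 2, 1], [0, 1, 0, 1, 0], [2, 2, 1, 1, 0], [0, 2, 2, 2, 1], [2, 0, 1, 0, 1],
    [1, 1, 0, 1, 1], [0, 0, 2, 2, 2], [2, 0, 0, 0, 2], [1, 1, 2, 0, 0], [1, 2, 2, 0, 2],
    [2, 0, 1, 1, 0], [2, 1, 2, 2, 2], [0, 2, 2, 1, 1], [1, 1, 2, 1, 2], [0, 1, 1, 1, 2],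
    [2, 2, 2, 2, 2], [2, 1, 2, 0, 2], [0, 2, 2, 0, 1], [1, 2, 0, 0, 0], [2, 1, 1, 0, 2],
    [0, 0, 2, 0, 2], [2, 2, 0, 2, 1], [2, 0, 0, 1, 0]]

/-- dot product of lists of natural numbers -/
def dotN : List ℕ → List ℕ → ℕ
  | n :: l, a :: v => n * a + dotN l v
  | _, _ => 0

/-- dot product of a list of natural numbers with a list of polynomials -/
noncomputable def dotP : List ℕ → List ℕ[X] → ℕ[X]
  | n :: l, a :: v => C n * a + dotP l v
  | _, _ => 0

def L6N : List ℕ := (List.range 7).map fun a => (B + a) ^ 6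
def gN : List ℕ := W2L.map fun w => red 7 (dotN w L6N)
def GN (g : List ℕ) : List ℕ := g.map fun g => red 37 (g ^ 6)
def g5N (g : List ℕ) : List ℕ := g.map fun g => red 31 (g ^ 5)
def h5N (G : List ℕ) : List ℕ := lamL.map fun l => red 181 ((red 37 (dotN l G)) ^ 5)
def DN (h5 : List ℕ) : List ℕ :=
  (List.range 5).map fun j => red 181 (dotN (lamL.map fun l => l.getD j 0) h5)
def EN (D g5 : List ℕ) : List ℕ := List.zipWith (fun D g => red 211 (D * g)) D g5
def rowsN (h5 G E : List ℕ) : List ℕ :=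
  (h5.flatMap fun H => G.map fun G => H * G) ++ E.flatMap fun E => (L6N.take 6).map fun l => E * l

/-- the check, evaluated by the kernel -/
def check : Bool :=
  forceL gN fun g => forceL (GN g) fun G => forceL (g5N g) fun g5 => forceL (h5N G) fun h5 =>
    forceL (DN h5) fun D => forceL (EN D g5) fun E => forceL (rowsN h5 G E) fun rows => elim 216 rows

set_option maxRecDepth 100000 in
theorem check_eq : check = true := by decide +kernel

/-! ### The relation with polynomials -/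

/-- `N` is the value at the base of a polynomial congruent to `T` -/
def RP (n w N : ℕ) (T : ℕ[X]) : Prop :=
  ∃ F : ℕ[X], F.natDegree ≤ n ∧ F.eval 1 ≤ w ∧ F.eval B = N ∧
    F.map (Nat.castRingHom (ZMod p)) = T.map (Nat.castRingHom (ZMod p))

theorem RP.mono {n w n' w' N : ℕ} {T : ℕ[X]} (h : RP n w N T) (hn : n ≤ n') (hw : w ≤ w') :
    RP n' w' N T := by
  obtain ⟨F, h1, h2, h3, h4⟩ := h
  exact ⟨F, h1.trans hn, h2.trans hw, h3, h4⟩

theorem RP.red {n w N : ℕ} {T : ℕ[X]} (h : RP n w N T) (hw : w < B) :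
    RP n ((n + 1) * p) (NN.red (n + 1) N) T := by
  obtain ⟨F, h1, h2, h3, h4⟩ := h
  obtain ⟨F', h5, h6, h7, h8⟩ := red_spec n F h1 (lt_of_le_of_lt h2 hw)
  refine ⟨F', h5, h6, by rw [h7, h3], ?_⟩
  rw [← h4]
  ext i
  simpa using h8 i

theorem RP.mul {n w N m v M : ℕ} {T S : ℕ[X]} (h : RP n w N T) (h' : RP m v M S) :
    RP (n + m) (w * v) (N * M) (T * S) := by
  obtain ⟨F, h1, h2, h3, h4⟩ := h
  obtain ⟨G, g1, g2, g3, g4⟩ := h'
  refine ⟨F * G, natDegree_mul_le.trans (Nat.add_le_add h1 g1), ?_, ?_, ?_⟩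
  · rw [eval_mul]; exact Nat.mul_le_mul h2 g2
  · rw [eval_mul, h3, g3]
  · rw [Polynomial.map_mul, Polynomial.map_mul, h4, g4]

theorem RP.pow {n w N : ℕ} {T : ℕ[X]} (h : RP n w N T) (k : ℕ) :
    RP (k * n) (w ^ k) (N ^ k) (T ^ k) := by
  obtain ⟨F, h1, h2, h3, h4⟩ := h
  refine ⟨F ^ k, natDegree_pow_le.trans (Nat.mul_le_mul_left _ h1), ?_, ?_, ?_⟩
  · rw [eval_pow]; exact Nat.pow_le_pow_left h2 k
  · rw [eval_pow, h3]
  · rw [Polynomial.map_pow, Polynomial.map_pow, h4]

theorem RP.lin (a : ℕ) : RP 1 (1 + a) (B + a) (X + C a) :=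
  ⟨X + C a, by simpa using (natDegree_add_le (X : ℕ[X]) (C a)).trans (by simp), by simp, by simp, rfl⟩

theorem RP.zero (n w : ℕ) : RP n w 0 0 := ⟨0, by simp, by simp, by simp, rfl⟩

theorem RP.dot {n w b : ℕ} (l : List ℕ) (hl : ∀ x ∈ l, x ≤ b) : ∀ (v : List ℕ) (vP : List ℕ[X]),
    List.Forall₂ (RP n w) v vP → RP n (l.length * (b * w)) (dotN l v) (dotP l vP) := by
  induction l with
  | nil => intro v vP _; simpa [dotN, dotP] using RP.zero n _
  | cons x l ih =>
    intro v vP h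
    rcases h with _ | ⟨h1, h2⟩
    · simpa [dotN, dotP] using RP.zero n _
    · rename_i a c v vP
      obtain ⟨F, a1, a2, a3, a4⟩ := h1
      obtain ⟨G, b1, b2, b3, b4⟩ := ih (fun y hy => hl y (by simp [hy])) v vP h2
      refine ⟨C x * F + G, ?_, ?_, ?_, ?_⟩
      · exact (natDegree_add_le _ _).trans (max_le ((natDegree_C_mul_le _ _).trans a1) b1)
      · rw [eval_add, eval_mul, eval_C, List.length_cons]
        have := Nat.mul_le_mul (hl x (by simp)) a2
        nlinarith
      · rw [eval_add, eval_mul, eval_C, a3, b3]; rfl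
      · simp only [dotP, Polynomial.map_add, Polynomial.map_mul, Polynomial.map_C, a4, b4]

theorem RP.pair {n w N : ℕ} {T : ℕ[X]} {c : ℕ → ZMod p} (h : RP n w N T) (hT : NN.pair n c T = 0) :
    ∃ F : ℕ[X], F.natDegree ≤ n ∧ F.eval 1 ≤ w ∧ F.eval B = N ∧ NN.pair n c F = 0 := by
  obtain ⟨F, h1, h2, h3, h4⟩ := h
  refine ⟨F, h1, h2, h3, ?_⟩
  rw [← hT]
  unfold NN.pair
  refine Finset.sum_congr rfl fun i _ => ?_
  have := congrArg (fun q => Polynomial.coeff q i) h4
  simp only [coeff_map] at this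
  simp only [Nat.coe_castRingHom] at this
  rw [this]

noncomputable def L6P : List ℕ[X] := (List.range 7).map fun a => (X + C a) ^ 6
noncomputable def gP : List ℕ[X] := W2L.map fun w => dotP w L6P
noncomputable def hP : List ℕ[X] := lamL.map fun l => dotP l (gP.map fun g => g ^ 6)
noncomputable def DP : List ℕ[X] :=
  (List.range 5).map fun j => dotP (lamL.map fun l => l.getD j 0) (hP.map fun h => h ^ 5)
noncomputable def EP : List ℕ[X] := List.zipWith (fun D g => D * g) DP (gP.map fun g => g ^ 5)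
/-- the rows, as polynomials -/
noncomputable def rowsP : List ℕ[X] :=
  ((hP.map fun h => h ^ 5).flatMap fun H => (gP.map fun g => g ^ 6).map fun G => H * G) ++
    EP.flatMap fun E => (L6P.take 6).map fun l => E * l

theorem forall₂_map {α β γ δ : Type*} {R : α → β → Prop} {S : γ → δ → Prop} {f : α → γ} {g : β → δ}
    {l : List α} {l' : List β} (h : List.Forall₂ R l l') (hfg : ∀ a b, R a b → S (f a) (g b)) :
    List.Forall₂ S (l.map f) (l'.map g) := by
  induction h with
  | nil => exact List.Forall₂.nil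
  | cons h _ ih => exact List.Forall₂.cons (hfg _ _ h) ih

theorem forall₂_map_self {α γ δ : Type*} {S : γ → δ → Prop} {f : α → γ} {g : α → δ}
    (l : List α) (hfg : ∀ a ∈ l, S (f a) (g a)) : List.Forall₂ S (l.map f) (l.map g) := by
  induction l with
  | nil => exact List.Forall₂.nil
  | cons a l ih =>
    exact List.Forall₂.cons (hfg a (by simp)) (ih fun b hb => hfg b (by simp [hb]))

theorem forall₂_append {α β : Type*} {R : α → β → Prop} {l₁ l₂ : List α} {m₁ m₂ : List β}
    (h : List.Forall₂ R l₁ m₁) (h' : List.Forall₂ R l₂ m₂) :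
    List.Forall₂ R (l₁ ++ l₂) (m₁ ++ m₂) := by
  induction h with
  | nil => exact h'
  | cons h _ ih => exact List.Forall₂.cons h ih

theorem forall₂_flatMap {α β γ δ : Type*} {R : α → β → Prop} {S : γ → δ → Prop} {f : α → List γ}
    {g : β → List δ} {l : List α} {l' : List β} (h : List.Forall₂ R l l')
    (hfg : ∀ a b, R a b → List.Forall₂ S (f a) (g b)) :
    List.Forall₂ S (l.flatMap f) (l'.flatMap g) := by
  induction h with
  | nil => exact List.Forall₂.nil
  | cons h _ ih =>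
    rw [List.flatMap_cons, List.flatMap_cons]
    exact forall₂_append (hfg _ _ h) ih

theorem forall₂_zipWith {α β γ δ ε ζ : Type*} {R : α → β → Prop} {S : γ → δ → Prop}
    {Q : ε → ζ → Prop} {f : α → γ → ε} {g : β → δ → ζ} {l : List α} {l' : List β}
    (h : List.Forall₂ R l l') (hfg : ∀ a b, R a b → ∀ c d, S c d → Q (f a c) (g b d)) :
    ∀ {m : List γ} {m' : List δ}, List.Forall₂ S m m' →
    List.Forall₂ Q (List.zipWith f l m) (List.zipWith g l' m') := by
  induction h with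
  | nil => intro m m' _; simp
  | cons h _ ih =>
    intro m m' h'
    rcases h' with _ | ⟨h1, h2⟩
    · simp
    · exact List.Forall₂.cons (hfg _ _ h _ _ h1) (ih h2)

theorem forall₂_take {α β : Type*} {R : α → β → Prop} {l : List α} {l' : List β}
    (h : List.Forall₂ R l l') (n : ℕ) : List.Forall₂ R (l.take n) (l'.take n) := by
  induction h generalizing n with
  | nil => simp
  | cons h _ ih =>
    rcases n with _ | n
    · simp
    · exact List.Forall₂.cons h (ih n)

theorem rel_L6 : List.Forall₂ (RP 6 117649) L6N L6P := by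
  refine forall₂_map_self _ fun a ha => ?_
  have ha' : a < 7 := List.mem_range.1 ha
  refine ((RP.lin a).pow 6).mono (by norm_num) ?_
  calc (1 + a) ^ 6 ≤ 7 ^ 6 := Nat.pow_le_pow_left (by omega) 6
    _ = 117649 := by norm_num

theorem W2L_le : ∀ w ∈ W2L, w.length = 7 ∧ ∀ x ∈ w, x ≤ 1 := by decide
theorem lamL_le : ∀ l ∈ lamL, l.length = 5 ∧ ∀ x ∈ l, x ≤ 2 := by decide

theorem rel_g : List.Forall₂ (RP 6 (7 * p)) gN gP := by
  refine forall₂_map_self _ fun w hw => ?_
  obtain ⟨h1, h2⟩ := W2L_le w hw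
  have := RP.dot w h2 _ _ rel_L6
  rw [h1] at this
  exact this.red (by norm_num)

theorem rel_G : List.Forall₂ (RP 36 (37 * p)) (GN gN) (gP.map fun g => g ^ 6) :=
  forall₂_map rel_g fun _ _ h => (h.pow 6).red (by norm_num)

theorem rel_g5 : List.Forall₂ (RP 30 (31 * p)) (g5N gN) (gP.map fun g => g ^ 5) :=
  forall₂_map rel_g fun _ _ h => (h.pow 5).red (by norm_num)

theorem rel_h5 : List.Forall₂ (RP 180 (181 * p)) (h5N (GN gN)) (hP.map fun h => h ^ 5) := by
  unfold hP
  rw [List.map_map]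
  refine forall₂_map_self _ fun l hl => ?_
  obtain ⟨h1, h2⟩ := lamL_le l hl
  have := RP.dot l h2 _ _ rel_G
  rw [h1] at this
  exact ((this.red (by norm_num)).pow 5).red (by norm_num)

theorem rel_D : List.Forall₂ (RP 180 (181 * p)) (DN (h5N (GN gN))) DP := by
  refine forall₂_map_self _ fun j hj => ?_
  have hl : ∀ x ∈ lamL.map (fun l => l.getD j 0), x ≤ 2 := by
    intro x hx
    obtain ⟨l, hl, rfl⟩ := List.mem_map.1 hx
    obtain ⟨h1, h2⟩ := lamL_le l hl
    have hj' : j < l.length := by rw [h1]; exact List.mem_range.1 hj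
    rw [List.getD_eq_getElem _ _ hj']
    exact h2 _ (List.getElem_mem _)
  have := RP.dot _ hl _ _ rel_h5
  rw [List.length_map, show lamL.length = 38 from rfl] at this
  exact this.red (by norm_num)

theorem rel_E : List.Forall₂ (RP 210 (211 * p)) (EN (DN (h5N (GN gN))) (g5N gN)) EP := by
  have key : ∀ (a : ℕ) (b : ℕ[X]), RP 180 (181 * p) a b → ∀ (c : ℕ) (d : ℕ[X]),
      RP 30 (31 * p) c d → RP 210 (211 * p) (NN.red 211 (a * c)) (b * d) := by
    intro a b h c d h'
    exact (h.mul h').red (by norm_num)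
  exact forall₂_zipWith rel_D key rel_g5

theorem rel_rows : List.Forall₂ (RP 216 (181 * p * (37 * p)))
    (rowsN (h5N (GN gN)) (GN gN) (EN (DN (h5N (GN gN))) (g5N gN))) rowsP := by
  refine forall₂_append ?_ ?_
  · exact forall₂_flatMap rel_h5 fun _ _ h => forall₂_map rel_G fun _ _ h' => h.mul h'
  · refine forall₂_flatMap rel_E fun _ _ h => forall₂_map (forall₂_take rel_L6 6) fun _ _ h' => ?_
    exact (h.mul h').mono (by norm_num) (by norm_num)

/-- **The rows have rank 217 modulo `p`.** -/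
theorem rank_modp (c : ℕ → ZMod p) (hc : ∀ T ∈ rowsP, pair 216 c T = 0) : ∀ t ≤ 216, c t = 0 := by
  have h := check_eq
  unfold check at h
  simp only [forceL_eq] at h
  refine elim_sound 216 le_rfl _ (181 * p * (37 * p)) c (by norm_num) ?_ h
  intro V hV
  have key : ∀ (l : List ℕ) (l' : List ℕ[X]), List.Forall₂ (RP 216 (181 * p * (37 * p))) l l' →
      (∀ T ∈ l', pair 216 c T = 0) → ∀ V ∈ l, ∃ F : ℕ[X], F.natDegree ≤ 216 ∧
        F.eval 1 ≤ 181 * p * (37 * p) ∧ F.eval B = V ∧ pair 216 c F = 0 := by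
    intro l l' h
    induction h with
    | nil => intro _ V hV; exact absurd hV (by simp)
    | cons h _ ih =>
      intro hT V hV
      rcases List.mem_cons.1 hV with rfl | hV
      · exact h.pair (hT _ (by simp))
      · exact ih (fun T hT' => hT T (by simp [hT'])) V hV
  exact key _ _ rel_rows hc V hV

end Pool.Agent.Q78.NN
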