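import Pool.Agent.Q78.NN.Rank
import Pool.Agent.H124R3.Jac

/-!
# The width vector (2, 7, 5, 38, 1) is filling for the activation degree 6
-/

set_option autoImplicit false

namespace Pool.Agent.Q78.NN

open MvPolynomial

/-- one layer of a network -/
noncomputable def layer {R : Type} [CommSemiring R] (n m : ℕ) (W : ℕ → ℕ → R)
    (h : ℕ → MvPolynomial ℕ R) (a : ℕ) : MvPolynomial ℕ R :=
  ∑ b ∈ Finset.range n, C (W a b) * h b ^ m

/-- the network of the frozen statement, for `L = 4` and `r = 6` -/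
noncomputable def net (e : Fin (4 + 1) → ℕ) (W : Fin 4 → ℕ → ℕ → ℂ) : ℕ → MvPolynomial ℕ ℂ :=
  layer (e 3) 6 (W 3) (layer (e 2) 6 (W 2) (layer (e 1) 6 (W 1) (layer (e 0) 1 (W 0) fun b => X b)))

theorem foldl_eq (e : Fin (4 + 1) → ℕ) (W : Fin 4 → ℕ → ℕ → ℂ) :
    ((List.finRange 4).foldl
      (fun (h : ℕ → MvPolynomial ℕ ℂ) (k : Fin 4) (a : ℕ) =>
        ∑ b ∈ Finset.range (e k.castSucc), C (W k a b) * h b ^ (if (k : ℕ) = 0 then 1 else 6))
      (fun b : ℕ => (X b : MvPolynomial ℕ ℂ))) = net e W := by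
  rfl

/-! ### Homogenization -/

/-- the binary form of degree `n` with the given dehomogenization -/
noncomputable def hom (n : ℕ) (φ : Polynomial ℂ) : MvPolynomial ℕ ℂ :=
  rename (Fin.val : Fin 2 → ℕ) (φ.homogenize n)

theorem hom_add (n : ℕ) (φ ψ : Polynomial ℂ) : hom n (φ + ψ) = hom n φ + hom n ψ := by
  simp [hom]

theorem hom_C_mul (n : ℕ) (c : ℂ) (φ : Polynomial ℂ) :
    hom n (Polynomial.C c * φ) = C c * hom n φ := by
  simp [hom]

theorem hom_sum {ι : Type} (s : Finset ι) (n : ℕ) (φ : ι → Polynomial ℂ) :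
    hom n (∑ i ∈ s, φ i) = ∑ i ∈ s, hom n (φ i) := by
  simp [hom]

theorem hom_pow (n k : ℕ) (φ : Polynomial ℂ) (h : φ.natDegree ≤ n) :
    hom (k * n) (φ ^ k) = hom n φ ^ k := by
  induction k with
  | zero => simp [hom]
  | succ k ih =>
    rw [pow_succ, pow_succ, ← ih, Nat.succ_mul]
    unfold hom
    rw [Polynomial.homogenize_mul _ _ (Polynomial.natDegree_pow_le.trans (Nat.mul_le_mul_left k h)) h,
      map_mul]

theorem hom_lin (a : ℂ) : hom 1 (Polynomial.X + Polynomial.C a) = X 0 + C a * X 1 := by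
  simp [hom]

/-- the exponent of `x_0 ^ t x_1 ^ (216 - t)` -/
noncomputable def expo (t : Fin 217) : ℕ →₀ ℕ := Finsupp.single 0 (t : ℕ) + Finsupp.single 1 (216 - (t : ℕ))

theorem expo_injective : Function.Injective expo := by
  intro t u h
  have := DFunLike.congr_fun h 0
  simp [expo] at this
  exact Fin.ext this

/-- extension by zero -/
noncomputable def ext (u : Fin 217 → ℂ) (q : ℕ × (ℕ →₀ ℕ)) : ℂ :=
  by classical exact ∑ t, if q = (0, expo t) then u t else 0

theorem ext_expo (u : Fin 217 → ℂ) (t : Fin 217) : ext u (0, expo t) = u t := by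
  classical
  unfold ext
  rw [Finset.sum_eq_single t]
  · simp
  · intro b _ hb
    rw [if_neg]
    intro h
    exact hb (expo_injective (Prod.mk.inj h).2).symm
  · simp

theorem ext_zero (u : Fin 217 → ℂ) (q : ℕ × (ℕ →₀ ℕ)) (h : ∀ t, q ≠ (0, expo t)) : ext u q = 0 := by
  classical
  unfold ext
  exact Finset.sum_eq_zero fun t _ => if_neg (h t)

theorem coeff_hom (φ : Polynomial ℂ) (m : ℕ →₀ ℕ) :
    coeff m (hom 216 φ) = ext (fun t => φ.coeff t) (0, m) := by
  classical
  by_cases h : ∃ t : Fin 217, m = expo t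
  · obtain ⟨t, rfl⟩ := h
    rw [ext_expo]
    have h1 : expo t = Finsupp.mapDomain (Fin.val : Fin 2 → ℕ)
        (Finsupp.single 0 (t : ℕ) + Finsupp.single 1 (216 - (t : ℕ))) := by
      rw [Finsupp.mapDomain_add, Finsupp.mapDomain_single, Finsupp.mapDomain_single]
      rfl
    unfold hom
    rw [h1, coeff_rename_mapDomain _ Fin.val_injective, Polynomial.coeff_homogenize]
    have ht : (t : ℕ) < 217 := t.isLt
    simp
    omega
  · rw [ext_zero]
    · unfold hom
      by_cases h2 : ∃ u : Fin 2 →₀ ℕ, Finsupp.mapDomain (Fin.val : Fin 2 → ℕ) u = m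
      · obtain ⟨u, rfl⟩ := h2
        rw [coeff_rename_mapDomain _ Fin.val_injective, Polynomial.coeff_homogenize, if_neg]
        intro h3
        refine h ⟨⟨u 0, by omega⟩, ?_⟩
        have hu : u = Finsupp.single 0 (u 0) + Finsupp.single 1 (u 1) := by
          ext i
          fin_cases i <;> simp
        conv_lhs => rw [hu]
        rw [Finsupp.mapDomain_add, Finsupp.mapDomain_single, Finsupp.mapDomain_single]
        unfold expo
        have h4 : 216 - u 0 = u 1 := by omega
        simp only [h4]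
        rfl
      · exact coeff_rename_eq_zero _ _ _ fun u hu => absurd ⟨u, hu⟩ h2
    · intro t ht
      exact h ⟨t, (Prod.mk.inj ht).2⟩

/-! ### The family -/

/-- the index set of the parameters -/
abbrev Sg : Type := (Fin 38 × Fin 5) ⊕ (Fin 5 × Fin 7)

section Family

variable {R : Type} [CommRing R]

/-- the second layer -/
noncomputable def g2 (w : Sg → R) (j : Fin 5) : Polynomial R :=
  ∑ a : Fin 7, Polynomial.C (w (Sum.inr (j, a))) * (Polynomial.X + Polynomial.C ((a : ℕ) : R)) ^ 6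

/-- the third layer -/
noncomputable def h2 (w : Sg → R) (k : Fin 38) : Polynomial R :=
  ∑ j : Fin 5, Polynomial.C (w (Sum.inl (k, j))) * g2 w j ^ 6

/-- the output -/
noncomputable def Ph (w : Sg → R) : Polynomial R := ∑ k : Fin 38, h2 w k ^ 6

theorem map_g2 {S : Type} [CommRing S] (f : R →+* S) (w : Sg → R) (j : Fin 5) :
    (g2 w j).map f = g2 (fun s => f (w s)) j := by
  simp [g2, Polynomial.map_sum]

theorem map_h2 {S : Type} [CommRing S] (f : R →+* S) (w : Sg → R) (k : Fin 38) :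
    (h2 w k).map f = h2 (fun s => f (w s)) k := by
  simp [h2, Polynomial.map_sum, map_g2]

theorem map_Ph {S : Type} [CommRing S] (f : R →+* S) (w : Sg → R) :
    (Ph w).map f = Ph fun s => f (w s) := by
  simp [Ph, Polynomial.map_sum, map_h2]

end Family

/-- the weights -/
noncomputable def WW (w : Sg → ℂ) : Fin 4 → ℕ → ℕ → ℂ :=
  ![fun a b => if b = 0 then 1 else if b = 1 then (a : ℂ) else 0,
    fun j a => if h : j < 5 ∧ a < 7 then w (Sum.inr (⟨j, h.1⟩, ⟨a, h.2⟩)) else 0,
    fun k j => if h : k < 38 ∧ j < 5 then w (Sum.inl (⟨k, h.1⟩, ⟨j, h.2⟩)) else 0,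
    fun o _ => if o = 0 then 1 else 0]

theorem natDegree_lin (a : ℂ) : (Polynomial.X + Polynomial.C a).natDegree ≤ 1 := by
  simp

theorem natDegree_g2 (w : Sg → ℂ) (j : Fin 5) : (g2 w j).natDegree ≤ 6 := by
  refine Polynomial.natDegree_sum_le_of_forall_le _ _ fun a _ => ?_
  refine (Polynomial.natDegree_C_mul_le _ _).trans (Polynomial.natDegree_pow_le.trans ?_)
  have := natDegree_lin ((a : ℕ) : ℂ)
  omega

theorem natDegree_h2 (w : Sg → ℂ) (k : Fin 38) : (h2 w k).natDegree ≤ 36 := by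
  refine Polynomial.natDegree_sum_le_of_forall_le _ _ fun a _ => ?_
  refine (Polynomial.natDegree_C_mul_le _ _).trans (Polynomial.natDegree_pow_le.trans ?_)
  have := natDegree_g2 w a
  omega

theorem net_WW (w : Sg → ℂ) (o : ℕ) :
    net ![2, 7, 5, 38, 1] (WW w) o = if o = 0 then hom 216 (Ph w) else 0 := by
  have l1 : ∀ a : ℕ, layer 2 1 (WW w 0) (fun b => X b) a
      = hom 1 (Polynomial.X + Polynomial.C (a : ℂ)) := by
    intro a
    rw [hom_lin]
    simp [layer, Finset.sum_range_succ, WW]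
  have l2 : ∀ j : Fin 5, layer 7 6 (WW w 1) (layer 2 1 (WW w 0) fun b => X b) j = hom 6 (g2 w j) := by
    intro j
    unfold layer g2
    rw [hom_sum, Finset.sum_range]
    refine Finset.sum_congr rfl fun a _ => ?_
    have := l1 a
    unfold layer at this
    rw [this, hom_C_mul, ← hom_pow 1 6 _ (natDegree_lin _)]
    simp [WW]
  have l3 : ∀ k : Fin 38, layer 5 6 (WW w 2)
      (layer 7 6 (WW w 1) (layer 2 1 (WW w 0) fun b => X b)) k = hom 36 (h2 w k) := by
    intro k
    rw [layer]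
    unfold h2
    rw [hom_sum, Finset.sum_range]
    refine Finset.sum_congr rfl fun j _ => ?_
    rw [l2 j, hom_C_mul, ← hom_pow 6 6 _ (natDegree_g2 _ _)]
    simp [WW]
  change layer 38 6 (WW w 3) (layer 5 6 (WW w 2)
      (layer 7 6 (WW w 1) (layer 2 1 (WW w 0) fun b => X b))) o = _
  rw [layer]
  split_ifs with ho
  · subst ho
    unfold Ph
    rw [hom_sum, Finset.sum_range]
    refine Finset.sum_congr rfl fun k _ => ?_
    rw [l3 k, ← hom_pow 36 6 _ (natDegree_h2 _ _)]
    simp [WW]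
  · refine Finset.sum_eq_zero fun k _ => ?_
    simp [WW, ho]

/-! ### The derivatives -/

/-- the parameter ring -/
abbrev RR : Type := MvPolynomial Sg ℂ

/-- `Ψ` is the coefficientwise derivative of `Φ` -/
def DC (s : Sg) (Φ Ψ : Polynomial RR) : Prop := ∀ t, pderiv s (Φ.coeff t) = Ψ.coeff t

theorem DC.add {s : Sg} {Φ Ψ Φ' Ψ' : Polynomial RR} (h : DC s Φ Ψ) (h' : DC s Φ' Ψ') :
    DC s (Φ + Φ') (Ψ + Ψ') := by
  intro t
  rw [Polynomial.coeff_add, map_add, h t, h' t, Polynomial.coeff_add]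

theorem DC.sum {s : Sg} {ι : Type} (S : Finset ι) (Φ Ψ : ι → Polynomial RR)
    (h : ∀ i ∈ S, DC s (Φ i) (Ψ i)) : DC s (∑ i ∈ S, Φ i) (∑ i ∈ S, Ψ i) := by
  intro t
  rw [Polynomial.finsetSum_coeff, Polynomial.finsetSum_coeff, map_sum]
  exact Finset.sum_congr rfl fun i hi => h i hi t

theorem DC.mul {s : Sg} {Φ Ψ Φ' Ψ' : Polynomial RR} (h : DC s Φ Ψ) (h' : DC s Φ' Ψ') :
    DC s (Φ * Φ') (Ψ * Φ' + Φ * Ψ') := by
  intro t
  rw [Polynomial.coeff_mul, map_sum, Polynomial.coeff_add, Polynomial.coeff_mul,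
    Polynomial.coeff_mul, ← Finset.sum_add_distrib]
  refine Finset.sum_congr rfl fun x _ => ?_
  rw [pderiv_mul, h x.1, h' x.2]

theorem DC.pow {s : Sg} {Φ Ψ : Polynomial RR} (h : DC s Φ Ψ) (n : ℕ) :
    DC s (Φ ^ (n + 1)) ((n + 1 : ℕ) * Φ ^ n * Ψ) := by
  induction n with
  | zero => simpa using h
  | succ n ih =>
    have := ih.mul h
    rw [← pow_succ] at this
    convert this using 1
    push_cast
    ring

theorem DC.pow6 {s : Sg} {Φ Ψ : Polynomial RR} (h : DC s Φ Ψ) : DC s (Φ ^ 6) (6 * Φ ^ 5 * Ψ) := by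
  have := h.pow 5
  norm_num at this
  exact this

theorem DC.congr {s : Sg} {Φ Ψ Ψ' : Polynomial RR} (h : DC s Φ Ψ) (e : Ψ = Ψ') : DC s Φ Ψ' := e ▸ h

theorem DC.const {s : Sg} (Φ : Polynomial ℂ) : DC s (Φ.map (C : ℂ →+* RR)) 0 := by
  intro t
  rw [Polynomial.coeff_map, pderiv_C, Polynomial.coeff_zero]

theorem DC.CX (s u : Sg) :
    DC s (Polynomial.C (X u : RR)) (if s = u then 1 else 0) := by
  classical
  intro t
  rcases t with _ | t
  · rw [Polynomial.coeff_C_zero, pderiv_X]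
    split_ifs with h
    · subst h; simp
    · rw [Pi.single_eq_of_ne (Ne.symm h)]; simp
  · rw [Polynomial.coeff_C_succ, map_zero]
    split_ifs
    · rw [Polynomial.coeff_one]; simp
    · simp

/-- the powers of the linear forms -/
noncomputable def Lp (a : Fin 7) : Polynomial RR := (Polynomial.X + Polynomial.C ((a : ℕ) : RR)) ^ 6

theorem Lp_eq (a : Fin 7) : Lp a
    = ((Polynomial.X + Polynomial.C ((a : ℕ) : ℂ)) ^ 6).map (C : ℂ →+* RR) := by
  simp [Lp]

theorem DC_Lp (s : Sg) (a : Fin 7) : DC s (Lp a) 0 := by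
  rw [Lp_eq]; exact DC.const _

/-- the generic second layer -/
noncomputable def gg (j : Fin 5) : Polynomial RR := g2 (fun s => (X s : RR)) j

/-- the generic third layer -/
noncomputable def hh (k : Fin 38) : Polynomial RR := h2 (fun s => (X s : RR)) k

/-- the generic output -/
noncomputable def PP : Polynomial RR := Ph fun s => (X s : RR)

theorem gg_eq (j : Fin 5) : gg j = ∑ a : Fin 7, Polynomial.C (X (Sum.inr (j, a)) : RR) * Lp a := rfl

theorem hh_eq (k : Fin 38) :
    hh k = ∑ j : Fin 5, Polynomial.C (X (Sum.inl (k, j)) : RR) * gg j ^ 6 := rfl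

theorem PP_eq : PP = ∑ k : Fin 38, hh k ^ 6 := rfl

theorem DC_g2_inl (k : Fin 38) (j j' : Fin 5) : DC (Sum.inl (k, j)) (gg j') 0 := by
  rw [gg_eq]
  refine (DC.sum Finset.univ _ _ fun a _ => (DC.CX (Sum.inl (k, j)) (Sum.inr (j', a))).mul
    (DC_Lp _ a)).congr ?_
  refine Finset.sum_eq_zero fun a _ => ?_
  rw [if_neg (by simp), zero_mul, mul_zero, add_zero]

theorem DC_g2_inr (j j' : Fin 5) (a : Fin 7) :
    DC (Sum.inr (j, a)) (gg j') (if j = j' then Lp a else 0) := by
  rw [gg_eq]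
  refine (DC.sum Finset.univ _ _ fun a' _ => (DC.CX (Sum.inr (j, a)) (Sum.inr (j', a'))).mul
    (DC_Lp _ a')).congr ?_
  split_ifs with h
  · subst h
    rw [Finset.sum_eq_single a]
    · rw [if_pos rfl, one_mul, mul_zero, add_zero]
    · intro b _ hb
      rw [if_neg (fun h => hb (Prod.mk.inj (Sum.inr.inj h)).2.symm), zero_mul, mul_zero, add_zero]
    · intro h; exact absurd (Finset.mem_univ _) h
  · refine Finset.sum_eq_zero fun b _ => ?_
    rw [if_neg (fun h' => h (Prod.mk.inj (Sum.inr.inj h')).1), zero_mul, mul_zero, add_zero]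

theorem DC_h2_inl (k k' : Fin 38) (j : Fin 5) :
    DC (Sum.inl (k, j)) (hh k') (if k = k' then gg j ^ 6 else 0) := by
  rw [hh_eq]
  refine (DC.sum Finset.univ _ _ fun j' _ => (DC.CX (Sum.inl (k, j)) (Sum.inl (k', j'))).mul
    (DC_g2_inl k j j').pow6).congr ?_
  split_ifs with h
  · subst h
    rw [Finset.sum_eq_single j]
    · rw [if_pos rfl, one_mul, mul_zero, mul_zero, add_zero]
    · intro b _ hb
      rw [if_neg (fun h => hb (Prod.mk.inj (Sum.inl.inj h)).2.symm), zero_mul, mul_zero, mul_zero,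
        add_zero]
    · intro h; exact absurd (Finset.mem_univ _) h
  · refine Finset.sum_eq_zero fun b _ => ?_
    rw [if_neg (fun h' => h (Prod.mk.inj (Sum.inl.inj h')).1), zero_mul, mul_zero, mul_zero, add_zero]

theorem DC_h2_inr (k' : Fin 38) (j : Fin 5) (a : Fin 7) :
    DC (Sum.inr (j, a)) (hh k')
      (Polynomial.C (X (Sum.inl (k', j))) * (6 * gg j ^ 5 * Lp a)) := by
  rw [hh_eq]
  refine (DC.sum Finset.univ _ _ fun j' _ => (DC.CX (Sum.inr (j, a)) (Sum.inl (k', j'))).mul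
    (DC_g2_inr j j' a).pow6).congr ?_
  rw [Finset.sum_eq_single j]
  · rw [if_neg (by simp), if_pos rfl, zero_mul, zero_add]
  · intro b _ hb
    rw [if_neg (by simp), if_neg (Ne.symm hb), zero_mul, mul_zero, mul_zero, add_zero]
  · intro h; exact absurd (Finset.mem_univ _) h

theorem DC_Ph_inl (k : Fin 38) (j : Fin 5) :
    DC (Sum.inl (k, j)) PP (6 * hh k ^ 5 * gg j ^ 6) := by
  rw [PP_eq]
  refine (DC.sum Finset.univ _ _ fun k' _ => (DC_h2_inl k k' j).pow6).congr ?_
  rw [Finset.sum_eq_single k]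
  · rw [if_pos rfl]
  · intro b _ hb
    rw [if_neg (Ne.symm hb), mul_zero]
  · intro h; exact absurd (Finset.mem_univ _) h

theorem DC_Ph_inr (j : Fin 5) (a : Fin 7) :
    DC (Sum.inr (j, a)) PP
      (36 * ((∑ k : Fin 38, Polynomial.C (X (Sum.inl (k, j))) * hh k ^ 5) * gg j ^ 5 * Lp a)) := by
  rw [PP_eq]
  refine (DC.sum Finset.univ _ _ fun k' _ => (DC_h2_inr k' j a).pow6).congr ?_
  rw [Finset.sum_mul, Finset.sum_mul, Finset.mul_sum]
  refine Finset.sum_congr rfl fun k _ => ?_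
  ring

/-- the point -/
noncomputable def w0 : Sg → ℂ :=
  Sum.elim (fun x => (lam x.1 x.2 : ℂ)) (fun x => (W2 x.1 x.2 : ℂ))

theorem g2_w0 (j : Fin 5) : g2 w0 j = (gF j).map (Nat.castRingHom ℂ) := by
  simp [g2, gF, w0, Polynomial.map_sum]

theorem h2_w0 (k : Fin 38) : h2 w0 k = (hF k).map (Nat.castRingHom ℂ) := by
  rw [h2, hF, Polynomial.map_sum]
  refine Finset.sum_congr rfl fun j _ => ?_
  rw [g2_w0, Polynomial.map_mul, Polynomial.map_pow, Polynomial.map_C]
  rfl

theorem eval_coeff (u : Sg → ℂ) (Φ : Polynomial RR) (t : ℕ) :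
    eval u (Φ.coeff t) = (Φ.map (eval u)).coeff t := by
  rw [Polynomial.coeff_map]

theorem eval_X' (u : Sg → ℂ) : (fun s => eval u (X s : RR)) = u := by
  funext s; simp

theorem map_gg (u : Sg → ℂ) (j : Fin 5) : (gg j).map (eval u) = g2 u j := by
  rw [gg, map_g2, eval_X']

theorem map_hh (u : Sg → ℂ) (k : Fin 38) : (hh k).map (eval u) = h2 u k := by
  rw [hh, map_h2, eval_X']

theorem map_PP (u : Sg → ℂ) : PP.map (eval u) = Ph u := by
  rw [PP, map_Ph, eval_X']

theorem map_Lp (u : Sg → ℂ) (a : Fin 7) :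
    (Lp a).map (eval u) = (Polynomial.X + Polynomial.C ((a : ℕ) : ℂ)) ^ 6 := by
  rw [Lp, Polynomial.map_pow, Polynomial.map_add, Polynomial.map_X, Polynomial.map_C, map_natCast]

theorem map_six (u : Sg → ℂ) : (6 : Polynomial RR).map (eval u) = Polynomial.C 6 := by
  rw [Polynomial.map_ofNat]; rfl

theorem map_36 (u : Sg → ℂ) : (36 : Polynomial RR).map (eval u) = Polynomial.C 36 := by
  rw [Polynomial.map_ofNat]; rfl

theorem der_inl (k : Fin 38) (j : Fin 5) (t : ℕ) :
    eval w0 (pderiv (Sum.inl (k, j)) (PP.coeff t)) = 6 * ((T1 k j).coeff t : ℂ) := by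
  rw [DC_Ph_inl k j t, eval_coeff, Polynomial.map_mul, Polynomial.map_mul, Polynomial.map_pow,
    Polynomial.map_pow, map_six, map_hh, map_gg, g2_w0, h2_w0, mul_assoc, Polynomial.coeff_C_mul,
    ← Polynomial.map_pow, ← Polynomial.map_pow, ← Polynomial.map_mul, Polynomial.coeff_map]
  rfl

theorem der_inr (j : Fin 5) (a : Fin 7) (t : ℕ) :
    eval w0 (pderiv (Sum.inr (j, a)) (PP.coeff t)) = 36 * ((T2 j a).coeff t : ℂ) := by
  have e : ((∑ k : Fin 38, Polynomial.C (X (Sum.inl (k, j)) : RR) * hh k ^ 5) * gg j ^ 5 *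
      Lp a).map (eval w0) = (T2 j a).map (Nat.castRingHom ℂ) := by
    have e1 : (∑ k : Fin 38, Polynomial.C (X (Sum.inl (k, j)) : RR) * hh k ^ 5).map (eval w0)
        = (∑ k : Fin 38, Polynomial.C (lam k j) * hF k ^ 5).map (Nat.castRingHom ℂ) := by
      rw [Polynomial.map_sum, Polynomial.map_sum]
      refine Finset.sum_congr rfl fun k _ => ?_
      rw [Polynomial.map_mul, Polynomial.map_mul, Polynomial.map_pow, Polynomial.map_pow, map_hh,
        h2_w0, Polynomial.map_C, Polynomial.map_C, eval_X]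
      rfl
    have e2 : (Polynomial.X + Polynomial.C ((a : ℕ) : ℂ)) ^ 6
        = ((Polynomial.X + Polynomial.C (a : ℕ)) ^ 6 : Polynomial ℕ).map (Nat.castRingHom ℂ) := by
      rw [Polynomial.map_pow, Polynomial.map_add, Polynomial.map_X, Polynomial.map_C]
      rfl
    rw [T2, Polynomial.map_mul, Polynomial.map_mul, e1, Polynomial.map_pow, map_gg, map_Lp, g2_w0,
      e2, ← Polynomial.map_pow, ← Polynomial.map_mul, ← Polynomial.map_mul]
  rw [DC_Ph_inr j a t, eval_coeff, Polynomial.map_mul, map_36, e, Polynomial.coeff_C_mul,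
    Polynomial.coeff_map]
  rfl

/-- **The Jacobian criterion** for the family. -/
theorem alg_indep (Q : MvPolynomial (Fin 217) ℂ)
    (hQ : ∀ w : Sg → ℂ, eval (fun t : Fin 217 => (Ph w).coeff t) Q = 0) : Q = 0 := by
  refine Pool.Agent.H124R3.jacobian_dominant_at
    (fun t : Fin 217 => PP.coeff (t : ℕ)) w0 ?_ Q ?_
  · intro v hv
    refine rank_complex v ?_ ?_
    · intro k j
      have h1 := hv (Sum.inl (k, j))
      simp only [der_inl] at h1
      have h3 : (6 : ℂ) * ∑ t : Fin 217, v t * ((T1 k j).coeff t : ℂ) = 0 := by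
        rw [← h1, Finset.mul_sum]
        exact Finset.sum_congr rfl fun t _ => by ring
      exact (mul_eq_zero.1 h3).resolve_left (by norm_num)
    · intro j a
      have h1 := hv (Sum.inr (j, a))
      simp only [der_inr] at h1
      have h3 : (36 : ℂ) * ∑ t : Fin 217, v t * ((T2 j a).coeff t : ℂ) = 0 := by
        rw [← h1, Finset.mul_sum]
        exact Finset.sum_congr rfl fun t _ => by ring
      exact (mul_eq_zero.1 h3).resolve_left (by norm_num)
  · apply MvPolynomial.funext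
    intro w
    rw [map_zero, ← hQ w]
    have h1 : (fun t : Fin 217 => (Ph w).coeff t) = fun t : Fin 217 => eval w (PP.coeff (t : ℕ)) := by
      funext t
      rw [eval_coeff, map_PP]
    rw [h1, ← MvPolynomial.coe_aeval_eq_eval, ← MvPolynomial.coe_aeval_eq_eval, RingHom.coe_coe,
      RingHom.coe_coe, MvPolynomial.comp_aeval_apply]

theorem coeff_net_WW (w : Sg → ℂ) (q : ℕ × (ℕ →₀ ℕ)) :
    coeff q.2 (net ![2, 7, 5, 38, 1] (WW w) q.1) = ext (fun t : Fin 217 => (Ph w).coeff t) q := by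
  rw [net_WW]
  obtain ⟨o, m⟩ := q
  by_cases ho : o = 0
  · subst ho
    rw [if_pos rfl]
    exact coeff_hom _ _
  · rw [if_neg ho, coeff_zero, ext_zero]
    intro t ht
    exact ho (Prod.mk.inj ht).1

/-- the substitution -/
noncomputable def tau (q : ℕ × (ℕ →₀ ℕ)) : MvPolynomial (Fin 217) ℂ :=
  by classical exact ∑ t, if q = (0, expo t) then X t else 0

theorem eval_tau (u : Fin 217 → ℂ) (q : ℕ × (ℕ →₀ ℕ)) : eval u (tau q) = ext u q := by
  classical
  unfold tau ext
  rw [map_sum]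
  refine Finset.sum_congr rfl fun t _ => ?_
  split_ifs <;> simp

theorem eval_aeval_tau (u : Fin 217 → ℂ) (P : MvPolynomial (ℕ × (ℕ →₀ ℕ)) ℂ) :
    eval u (aeval tau P) = eval (ext u) P := by
  rw [← MvPolynomial.coe_aeval_eq_eval, RingHom.coe_coe, MvPolynomial.comp_aeval_apply,
    ← MvPolynomial.coe_aeval_eq_eval, RingHom.coe_coe]
  have : (fun q => aeval u (tau q)) = ext u := by
    funext q
    rw [← eval_tau, ← MvPolynomial.coe_aeval_eq_eval, RingHom.coe_coe]
  rw [this]

/-- **The width vector `(2, 7, 5, 38, 1)` is filling for `r = 6`.** -/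
theorem fill (P : MvPolynomial (ℕ × (ℕ →₀ ℕ)) ℂ)
    (hP : ∀ W : Fin 4 → ℕ → ℕ → ℂ,
      eval (fun q : ℕ × (ℕ →₀ ℕ) => coeff q.2 (net ![2, 7, 5, 38, 1] W q.1)) P = 0)
    (c : ℕ × (ℕ →₀ ℕ) → ℂ)
    (hc : ∀ q : ℕ × (ℕ →₀ ℕ), c q ≠ 0 →
      q.1 < 1 ∧ (∑ b ∈ q.2.support, q.2 b) = 216 ∧ ∀ b ∈ q.2.support, b < 2) :
    eval c P = 0 := by
  have hQ : aeval tau P = 0 := by
    apply alg_indep
    intro w
    rw [eval_aeval_tau, ← hP (WW w)]
    congr 2
    funext q
    exact (coeff_net_WW w q).symm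
  have hc' : c = ext fun t => c (0, expo t) := by
    funext q
    by_cases h : ∃ t, q = (0, expo t)
    · obtain ⟨t, rfl⟩ := h
      rw [ext_expo]
    · rw [ext_zero _ _ fun t ht => h ⟨t, ht⟩]
      by_contra hq
      obtain ⟨h1, h2, h3⟩ := hc q hq
      apply h
      obtain ⟨o, m⟩ := q
      have ho : o = 0 := by simpa using h1
      subst ho
      have hsum : m 0 + m 1 = 216 := by
        rw [← h2]
        have hsub : m.support ⊆ {0, 1} := by
          intro b hb
          have := h3 b hb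
          simp only [Finset.mem_insert, Finset.mem_singleton]
          omega
        rw [Finset.sum_subset hsub]
        · rw [Finset.sum_pair (by norm_num)]
        · intro b _ hb
          exact Finsupp.notMem_support_iff.1 hb
      refine ⟨⟨m 0, by omega⟩, ?_⟩
      refine Prod.ext rfl ?_
      ext b
      have h4 : 216 - m 0 = m 1 := by omega
      change m b = (Finsupp.single 0 (m 0) + Finsupp.single 1 (216 - m 0) : ℕ →₀ ℕ) b
      rw [h4]
      rcases b with _ | _ | b
      · simp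
      · simp
      · have : m (b + 2) = 0 := by
          by_contra hb
          have := h3 (b + 2) (Finsupp.mem_support_iff.2 hb)
          omega
        simp [this]
  rw [hc', ← eval_aeval_tau, hQ, map_zero]

end Pool.Agent.Q78.NN
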