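import Pool.Agent.Q78.NN.Fill

/-!
# Width vectors that are not filling, by a count of parameters
-/

set_option autoImplicit false

namespace Pool.Agent.Q78.NN

open MvPolynomial

/-- the filling property of the frozen statement, for `L = 4` and `r = 6` -/
def Fil (e : Fin (4 + 1) → ℕ) : Prop :=
  ∀ P : MvPolynomial (ℕ × (ℕ →₀ ℕ)) ℂ,
    (∀ W : Fin 4 → ℕ → ℕ → ℂ,
      eval (fun q : ℕ × (ℕ →₀ ℕ) => coeff q.2 (net e W q.1)) P = 0) →
    ∀ c : ℕ × (ℕ →₀ ℕ) → ℂ,
      (∀ q : ℕ × (ℕ →₀ ℕ), c q ≠ 0 →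
        q.1 < e (Fin.last 4) ∧ (∑ b ∈ q.2.support, q.2 b) = 6 ^ (4 - 1) ∧
          ∀ b ∈ q.2.support, b < e 0) →
      eval c P = 0

theorem fil_D : Fil ![2, 7, 5, 38, 1] := by
  intro P hP c hc
  exact fill P hP c hc

theorem layer_pad (n N m : ℕ) (h : n ≤ N) (W : ℕ → ℕ → ℂ) (g : ℕ → MvPolynomial ℕ ℂ) :
    layer n m W g = layer N m (fun a b => if b < n then W a b else 0) g := by
  funext a
  unfold layer
  rw [← Finset.sum_subset (Finset.range_mono h)]
  · refine Finset.sum_congr rfl fun b hb => ?_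
    beta_reduce
    rw [if_pos (Finset.mem_range.1 hb)]
  · intro b _ hb
    beta_reduce
    rw [if_neg (fun h => hb (Finset.mem_range.2 h)), C_0, zero_mul]

theorem net_pad (e E : Fin (4 + 1) → ℕ) (h : ∀ i, e i ≤ E i) (W : Fin 4 → ℕ → ℕ → ℂ) :
    ∃ W', net e W = net E W' := by
  refine ⟨fun k a b => if b < e k.castSucc then W k a b else 0, ?_⟩
  unfold net
  rw [layer_pad (e 0) (E 0) 1 (h 0), layer_pad (e 1) (E 1) 6 (h 1), layer_pad (e 2) (E 2) 6 (h 2),
    layer_pad (e 3) (E 3) 6 (h 3)]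
  rfl

theorem exists_relation {s : Type} [Fintype s] (hs : Fintype.card s < 217)
    (F : Fin 217 → MvPolynomial s ℂ) : ∃ Q : MvPolynomial (Fin 217) ℂ, Q ≠ 0 ∧ aeval F Q = 0 := by
  by_contra hcon
  push Not at hcon
  have hind : AlgebraicIndependent ℂ F := by
    rw [algebraicIndependent_iff]
    intro Q hQ
    by_contra h
    exact hcon Q h hQ
  have h1 := hind.cardinalMk_le_trdeg
  rw [MvPolynomial.trdeg_of_isDomain] at h1
  simp only [Cardinal.mk_fintype, Fintype.card_fin, Cardinal.lift_natCast, Nat.cast_le] at h1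
  omega

theorem not_fil {χ s : Type} [Fintype χ] [Fintype s] (hs : Fintype.card s < 217)
    (Φ : χ → MvPolynomial ℕ (MvPolynomial s ℂ)) (e : Fin (4 + 1) → ℕ) (h0 : e 0 = 2)
    (h4 : e (Fin.last 4) = 1)
    (h : ∀ W : Fin 4 → ℕ → ℕ → ℂ, ∃ (x : χ) (w : s → ℂ), net e W 0 = map (eval w) (Φ x)) :
    ¬ Fil e := by
  classical
  intro hF
  choose Q hQ1 hQ2 using fun x => exists_relation hs fun t => coeff (expo t) (Φ x)
  have hne : (∏ x, Q x) ≠ 0 := Finset.prod_ne_zero_iff.2 fun x _ => hQ1 x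
  have hex : ∃ u : Fin 217 → ℂ, eval u (∏ x, Q x) ≠ 0 := by
    by_contra hcon
    push Not at hcon
    exact hne (MvPolynomial.funext fun u => by rw [hcon u, map_zero])
  obtain ⟨u, hu⟩ := hex
  apply hu
  have key := hF (rename (fun t : Fin 217 => ((0 : ℕ), expo t)) (∏ x, Q x)) ?_ (ext u) ?_
  · rw [eval_rename] at key
    have h1 : (ext u ∘ fun t : Fin 217 => ((0 : ℕ), expo t)) = u := _root_.funext fun t => ext_expo u t
    rw [h1] at key
    exact key
  · intro W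
    rw [eval_rename]
    obtain ⟨x, w, hw⟩ := h W
    rw [map_prod]
    refine Finset.prod_eq_zero (Finset.mem_univ x) ?_
    have h1 : ((fun q : ℕ × (ℕ →₀ ℕ) => coeff q.2 (net e W q.1)) ∘
        fun t : Fin 217 => ((0 : ℕ), expo t)) = fun t => eval w (coeff (expo t) (Φ x)) := by
      funext t
      simp only [Function.comp_apply]
      rw [hw, coeff_map]
    rw [h1]
    have h2 := congrArg (eval w) (hQ2 x)
    rw [map_zero, ← MvPolynomial.coe_aeval_eq_eval, RingHom.coe_coe,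
      MvPolynomial.comp_aeval_apply] at h2
    rw [← MvPolynomial.coe_aeval_eq_eval, RingHom.coe_coe]
    exact h2
  · intro q hq
    have hex : ∃ t, q = (0, expo t) := by
      by_contra hcon
      push Not at hcon
      exact hq (ext_zero u q hcon)
    obtain ⟨t, rfl⟩ := hex
    refine ⟨by rw [h4]; norm_num, ?_, ?_⟩
    · have h1 : (∑ b ∈ (expo t).support, (expo t) b) = (expo t).degree := rfl
      change (∑ b ∈ (expo t).support, (expo t) b) = 6 ^ (4 - 1)
      rw [h1]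
      unfold expo
      rw [map_add, Finsupp.degree_single, Finsupp.degree_single]
      have := t.isLt
      norm_num
      omega
    · intro b hb
      rw [h0]
      by_contra hb2
      have : (expo t) b = 0 := by
        unfold expo
        rw [Finsupp.add_apply, Finsupp.single_eq_of_ne (by omega),
          Finsupp.single_eq_of_ne (by omega), add_zero]
      exact (Finsupp.mem_support_iff.1 hb) this

/-! ### A narrow third layer -/

/-- the parameters of the network `(2, 7, 5, 5, 1)` -/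
abbrev S5 : Type := (Fin 7 × Fin 2) ⊕ (Fin 5 × Fin 7) ⊕ (Fin 5 × Fin 5) ⊕ Fin 5

/-- the generic network `(2, 7, 5, 5, 1)` -/
noncomputable def Phi5 : MvPolynomial ℕ (MvPolynomial S5 ℂ) :=
  ∑ k : Fin 5, C (X (Sum.inr (Sum.inr (Sum.inr k))) : MvPolynomial S5 ℂ) *
    (∑ j : Fin 5, C (X (Sum.inr (Sum.inr (Sum.inl (k, j)))) : MvPolynomial S5 ℂ) *
      (∑ a : Fin 7, C (X (Sum.inr (Sum.inl (j, a))) : MvPolynomial S5 ℂ) *
        (∑ b : Fin 2, C (X (Sum.inl (a, b)) : MvPolynomial S5 ℂ) * X (b : ℕ)) ^ 6) ^ 6) ^ 6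

theorem not_fil_narrow (e : Fin (4 + 1) → ℕ) (h0 : e 0 = 2) (h1 : e 1 ≤ 7) (h2 : e 2 ≤ 5)
    (h3 : e 3 ≤ 5) (h4 : e 4 = 1) : ¬ Fil e := by
  refine not_fil (χ := Unit) (s := S5) (by simp) (fun _ => Phi5) e h0 h4 fun W => ?_
  obtain ⟨W', hW'⟩ := net_pad e ![2, 7, 5, 5, 1] (by
    intro i
    fin_cases i
    · exact h0.le
    · exact h1
    · exact h2
    · exact h3
    · exact h4.le) W
  refine ⟨(), Sum.elim (fun x : Fin 7 × Fin 2 => W' 0 x.1 x.2)
    (Sum.elim (fun x : Fin 5 × Fin 7 => W' 1 x.1 x.2)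
      (Sum.elim (fun x : Fin 5 × Fin 5 => W' 2 x.1 x.2) fun k : Fin 5 => W' 3 0 k)), ?_⟩
  · rw [hW']
    change layer 5 6 (W' 3) (layer 5 6 (W' 2) (layer 7 6 (W' 1) (layer 2 1 (W' 0) fun b => X b))) 0 = _
    simp only [layer, Phi5, Finset.sum_range, map_sum, map_mul, map_pow, map_C, map_X, eval_X,
      Sum.elim_inl, Sum.elim_inr, pow_one]

/-! ### A narrow first layer -/

/-- the reduced parameters of the network `(2, 5, 5, 38, 1)` -/
abbrev S38 : Type := (Fin 38 × Fin 5) ⊕ Fin 5 ⊕ (Fin 5 × Fin 4)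

theorem card_S38 : Fintype.card S38 = 215 := by simp

/-- a linear form in a chart -/
noncomputable def lch {R : Type} [CommRing R] (α : Bool) (t : R) : MvPolynomial ℕ R :=
  bif α then X 0 + C t * X 1 else C t * X 0 + X 1

theorem map_lch {R S : Type} [CommRing R] [CommRing S] (f : R →+* S) (α : Bool) (t : R) :
    map f (lch α t) = lch α (f t) := by
  cases α <;> simp [lch]

/-- the generic network in a chart -/
noncomputable def Phi38 (x : (Fin 5 → Bool) × (Fin 5 → Fin 5)) :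
    MvPolynomial ℕ (MvPolynomial S38 ℂ) :=
  ∑ k : Fin 38, (∑ j : Fin 5, C (X (Sum.inl (k, j))) *
    (∑ a : Fin 5, C ((x.2 j).insertNth (α := fun _ => MvPolynomial S38 ℂ) 1
        (fun m => X (Sum.inr (Sum.inr (j, m)))) a) *
      lch (x.1 a) (X (Sum.inr (Sum.inl a)))  ^ 6) ^ 6) ^ 6

theorem map_Phi38 (x : (Fin 5 → Bool) × (Fin 5 → Fin 5)) (w : S38 → ℂ) :
    map (eval w) (Phi38 x) = ∑ k : Fin 38, (∑ j : Fin 5, C (w (Sum.inl (k, j))) *
      (∑ a : Fin 5, C ((x.2 j).insertNth (α := fun _ => ℂ) 1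
        (fun m => w (Sum.inr (Sum.inr (j, m)))) a) *
      lch (x.1 a) (w (Sum.inr (Sum.inl a))) ^ 6) ^ 6) ^ 6 := by
  have h : ∀ j a, eval w ((x.2 j).insertNth (α := fun _ => MvPolynomial S38 ℂ) 1
        (fun m => X (Sum.inr (Sum.inr (j, m)))) a) = (x.2 j).insertNth (α := fun _ => ℂ) 1
        (fun m => w (Sum.inr (Sum.inr (j, m)))) a := by
    intro j a
    rcases Fin.eq_self_or_eq_succAbove (x.2 j) a with h | ⟨m, rfl⟩
    · subst h
      simp
    · simp
  simp only [Phi38, map_sum, map_pow, map_mul, map_C, eval_X, map_lch, h]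

theorem exists_lch (u v : ℂ) : ∃ (α : Bool) (s t : ℂ),
    (C u * X 0 + C v * X 1 : MvPolynomial ℕ ℂ) = C s * lch α t := by
  by_cases hu : u = 0
  · refine ⟨false, v, 0, ?_⟩
    subst hu
    simp [lch]
  · refine ⟨true, u, v / u, ?_⟩
    simp only [lch, cond_true]
    rw [mul_add, ← mul_assoc, ← C_mul, mul_div_cancel₀ _ hu]

theorem exists_insertNth (ν : Fin 5 → ℂ) : ∃ (i : Fin 5) (σ : ℂ) (f : Fin 4 → ℂ),
    ∀ a, ν a = σ * i.insertNth (α := fun _ => ℂ) 1 f a := by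
  by_cases h : ∃ i, ν i ≠ 0
  · obtain ⟨i, hi⟩ := h
    refine ⟨i, ν i, fun m => ν (i.succAbove m) / ν i, fun a => ?_⟩
    rcases Fin.eq_self_or_eq_succAbove i a with rfl | ⟨m, rfl⟩
    · simp
    · rw [Fin.insertNth_apply_succAbove, mul_div_cancel₀ _ hi]
  · push Not at h
    exact ⟨0, 0, 0, fun a => by rw [h a, zero_mul]⟩

theorem not_fil_first (e : Fin (4 + 1) → ℕ) (h0 : e 0 = 2) (h1 : e 1 ≤ 5) (h2 : e 2 ≤ 5)
    (h3 : e 3 ≤ 38) (h4 : e 4 = 1) : ¬ Fil e := by
  refine not_fil (χ := (Fin 5 → Bool) × (Fin 5 → Fin 5)) (s := S38) (by rw [card_S38]; norm_num)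
    Phi38 e h0 h4 fun W => ?_
  obtain ⟨W', hW'⟩ := net_pad e ![2, 5, 5, 38, 1] (by
    intro i
    fin_cases i
    · exact h0.le
    · exact h1
    · exact h2
    · exact h3
    · exact h4.le) W
  choose α s t hα using fun a : Fin 5 => exists_lch (W' 0 a 0) (W' 0 a 1)
  choose i σ f hi using fun j : Fin 5 => exists_insertNth fun a : Fin 5 => W' 1 j a * s a ^ 6
  choose κ hκ using fun k : Fin 38 => IsAlgClosed.exists_pow_nat_eq (W' 3 0 k) (show 0 < 6 by norm_num)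
  refine ⟨(α, i), Sum.elim (fun x => κ x.1 * (W' 2 x.1 x.2 * σ x.2 ^ 6))
    (Sum.elim t fun x => f x.1 x.2), ?_⟩
  rw [hW']
  have l1 : ∀ a : Fin 5, layer 2 1 (W' 0) (fun b => X b) (a : ℕ) = C (s a) * lch (α a) (t a) := by
    intro a
    rw [← hα a]
    simp [layer, Finset.sum_range_succ]
  have l2 : ∀ j : Fin 5, layer 5 6 (W' 1) (layer 2 1 (W' 0) fun b => X b) (j : ℕ)
      = C (σ j) * ∑ a : Fin 5, C ((i j).insertNth (α := fun _ => ℂ) 1 (f j) a) *
        lch (α a) (t a) ^ 6 := by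
    intro j
    rw [layer, Finset.sum_range, Finset.mul_sum]
    refine Finset.sum_congr rfl fun a _ => ?_
    rw [l1 a, mul_pow, ← C_pow, ← mul_assoc, ← C_mul, ← mul_assoc, ← C_mul, hi j a]
  have l3 : ∀ k : Fin 38, layer 5 6 (W' 2) (layer 5 6 (W' 1) (layer 2 1 (W' 0) fun b => X b)) (k : ℕ)
      = ∑ j : Fin 5, C (W' 2 k j * σ j ^ 6) * (∑ a : Fin 5,
        C ((i j).insertNth (α := fun _ => ℂ) 1 (f j) a) * lch (α a) (t a) ^ 6) ^ 6 := by
    intro k
    rw [layer, Finset.sum_range]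
    refine Finset.sum_congr rfl fun j _ => ?_
    rw [l2 j, mul_pow, ← C_pow, ← mul_assoc, ← C_mul]
  change layer 38 6 (W' 3) (layer 5 6 (W' 2) (layer 5 6 (W' 1) (layer 2 1 (W' 0) fun b => X b))) 0 = _
  rw [layer, Finset.sum_range, map_Phi38]
  refine Finset.sum_congr rfl fun k _ => ?_
  rw [l3 k, ← hκ k, C_pow, ← mul_pow, Finset.mul_sum]
  refine congrArg (fun z => z ^ 6) (Finset.sum_congr rfl fun j _ => ?_)
  rw [← mul_assoc, ← C_mul]
  simp only [Sum.elim_inl, Sum.elim_inr]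

end Pool.Agent.Q78.NN
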