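import Mathlib

/-!
# Polynomials modulo a prime packed into natural numbers

A polynomial with small natural coefficients is stored as its value at the base `B = 2 ^ 128`.
`red` reduces the coefficients modulo `p = 65521`; `elim` is Gaussian elimination.
Everything is evaluated by the kernel.
-/

set_option autoImplicit false

namespace Pool.Agent.Q78.NN

open Polynomial

/-- forces the evaluation of a natural number in the kernel -/
def force {α : Type*} (x : ℕ) (k : ℕ → α) : α := Nat.rec (k 0) (fun n _ => k (n + 1)) x

@[simp] theorem force_eq {α : Type*} (x : ℕ) (k : ℕ → α) : force x k = k x := by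
  cases x <;> rfl

/-- forces the evaluation of a list of natural numbers in the kernel -/
def forceL {α : Type*} (l : List ℕ) : (List ℕ → α) → α :=
  List.rec (motive := fun _ => (List ℕ → α) → α) (fun k => k [])
    (fun x _ ih k => force x fun y => ih fun r => k (y :: r)) l

@[simp] theorem forceL_eq {α : Type*} (l : List ℕ) (k : List ℕ → α) : forceL l k = k l := by
  induction l generalizing k with
  | nil => rfl
  | cons x l ih =>
    have : forceL (x :: l) k = force x fun y => forceL l fun r => k (y :: r) := rfl
    rw [this, force_eq, ih]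

/-- the base -/
abbrev B : ℕ := 340282366920938463463374607431768211456

/-- the prime -/
abbrev p : ℕ := 65521

instance fact_p : Fact (Nat.Prime p) := ⟨by norm_num⟩

/-- reduction of the first `n` digits -/
def red (n : ℕ) : ℕ → ℕ :=
  Nat.rec (motive := fun _ => ℕ → ℕ) (fun _ => 0)
    (fun _ ih N => force (N / B) fun M => N % B % p + B * ih M) n

theorem red_zero (N : ℕ) : red 0 N = 0 := rfl

theorem red_succ (n N : ℕ) : red (n + 1) N = N % B % p + B * red n (N / B) := by
  have : red (n + 1) N = force (N / B) fun M => N % B % p + B * red n M := rfl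
  rw [this, force_eq]

theorem coeff_le_eval_one (F : ℕ[X]) (i : ℕ) : F.coeff i ≤ F.eval 1 := by
  rw [eval_eq_sum_range]
  by_cases h : i ≤ F.natDegree
  · have := Finset.single_le_sum (f := fun i => F.coeff i * 1 ^ i) (s := Finset.range (F.natDegree + 1))
      (fun _ _ => Nat.zero_le _) (Finset.mem_range.2 (Nat.lt_succ_of_le h))
    simpa using this
  · rw [coeff_eq_zero_of_natDegree_lt (by omega)]
    exact Nat.zero_le _

theorem eval_split (F : ℕ[X]) (x : ℕ) : F.eval x = F.coeff 0 + x * F.divX.eval x := by
  conv_lhs => rw [← divX_mul_X_add F]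
  simp [mul_comm, add_comm]

theorem digit_zero (F : ℕ[X]) (h : F.eval 1 < B) : F.eval B % B = F.coeff 0 := by
  rw [eval_split, Nat.add_mul_mod_self_left]
  exact Nat.mod_eq_of_lt (lt_of_le_of_lt (coeff_le_eval_one F 0) h)

theorem digit_rest (F : ℕ[X]) (h : F.eval 1 < B) : F.eval B / B = F.divX.eval B := by
  have h0 : F.coeff 0 < B := lt_of_le_of_lt (coeff_le_eval_one F 0) h
  rw [eval_split, Nat.add_mul_div_left _ _ (by norm_num), Nat.div_eq_of_lt h0, zero_add]

theorem eval_one_divX (F : ℕ[X]) : F.divX.eval 1 ≤ F.eval 1 := by
  rw [eval_split F 1]; omega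

theorem natDegree_divX_le (F : ℕ[X]) (n : ℕ) (h : F.natDegree ≤ n + 1) : F.divX.natDegree ≤ n := by
  rw [natDegree_divX_eq_natDegree_tsub_one]; omega

theorem red_spec (n : ℕ) : ∀ F : ℕ[X], F.natDegree ≤ n → F.eval 1 < B →
    ∃ F' : ℕ[X], F'.natDegree ≤ n ∧ F'.eval 1 ≤ (n + 1) * p ∧ F'.eval B = red (n + 1) (F.eval B) ∧
      ∀ i, (F'.coeff i : ZMod p) = (F.coeff i : ZMod p) := by
  induction n with
  | zero =>
    intro F hF h1
    have hF' : F = C (F.coeff 0) := eq_C_of_natDegree_le_zero hF
    refine ⟨C (F.coeff 0 % p), by simp, ?_, ?_, ?_⟩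
    · simp only [eval_C]
      have := Nat.mod_lt (F.coeff 0) (show 0 < p by norm_num)
      omega
    · rw [eval_C, red_succ, digit_zero F h1, red_zero]; simp
    · intro i
      conv_rhs => rw [hF']
      rcases i with _ | i
      · simp
      · simp
  | succ n ih =>
    intro F hF h1
    obtain ⟨F', h2, h3, h4, h5⟩ := ih F.divX (natDegree_divX_le F n hF)
      (lt_of_le_of_lt (eval_one_divX F) h1)
    refine ⟨F' * X + C (F.coeff 0 % p), ?_, ?_, ?_, ?_⟩
    · refine (natDegree_add_le _ _).trans (max_le ?_ ?_)
      · exact (natDegree_mul_le).trans (by rw [natDegree_X]; omega)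
      · simp
    · simp only [eval_add, eval_mul, eval_X, eval_C, mul_one]
      have := Nat.mod_lt (F.coeff 0) (show 0 < p by norm_num)
      nlinarith
    · rw [red_succ, digit_zero F h1, digit_rest F h1, ← h4]
      simp only [eval_add, eval_mul, eval_X, eval_C]
      ring
    · intro i
      rcases i with _ | i
      · simp
      · rw [coeff_add, coeff_mul_X, coeff_C_succ, add_zero, h5, coeff_divX]

/-- one step of the elimination -/
def step (R W : ℕ) : ℕ := (W + (p - W % B % p) * R) / B

/-- one step of the elimination, for all rows -/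
def mapK {α : Type} (R : ℕ) (l : List ℕ) : (List ℕ → α) → α :=
  List.rec (motive := fun _ => (List ℕ → α) → α) (fun k => k [])
    (fun W _ ih k => force ((W + (p - W % B % p) * R) / B) fun x => ih fun r => k (x :: r)) l

theorem mapK_eq {α : Type} (R : ℕ) (l : List ℕ) (k : List ℕ → α) :
    mapK R l k = k (l.map (step R)) := by
  induction l generalizing k with
  | nil => rfl
  | cons x l ih =>
    have : mapK R (x :: l) k
        = force ((x + (p - x % B % p) * R) / B) fun y => mapK R l fun r => k (y :: r) := rfl
    rw [this, force_eq, ih]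
    rfl

/-- Gaussian elimination of polynomials of degree at most `n` -/
def elim (n : ℕ) : List ℕ → Bool :=
  Nat.rec (motive := fun _ => List ℕ → Bool)
    (fun rows => List.rec (motive := fun _ => Bool) false
      (fun V _ _ => bif Nat.beq (V % p) 0 then false else true) rows)
    (fun m ih rows => List.rec (motive := fun _ => Bool) false
      (fun V Vs _ => force (red (m + 2) ((V % B % p) ^ (p - 2) % p * V)) fun R =>
        bif Nat.beq (R % B) 1 then mapK R Vs ih else false) rows) n

theorem elim_zero_nil : elim 0 [] = false := rfl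
theorem elim_zero_cons (V : ℕ) (Vs : List ℕ) :
    elim 0 (V :: Vs) = bif Nat.beq (V % p) 0 then false else true := rfl
theorem elim_succ_nil (n : ℕ) : elim (n + 1) [] = false := rfl
theorem elim_succ_cons (n V : ℕ) (Vs : List ℕ) :
    elim (n + 1) (V :: Vs) =
      bif Nat.beq (red (n + 2) ((V % B % p) ^ (p - 2) % p * V) % B) 1 then
        elim n (Vs.map (step (red (n + 2) ((V % B % p) ^ (p - 2) % p * V)))) else false := by
  have : elim (n + 1) (V :: Vs) = force (red (n + 2) ((V % B % p) ^ (p - 2) % p * V)) fun R =>
      bif Nat.beq (R % B) 1 then mapK R Vs (elim n) else false := rfl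
  rw [this, force_eq, mapK_eq]

/-- the pairing of a functional with a polynomial -/
def pair (n : ℕ) (c : ℕ → ZMod p) (F : ℕ[X]) : ZMod p :=
  ∑ t ∈ Finset.range (n + 1), c t * (F.coeff t : ZMod p)

theorem elim_sound (n : ℕ) (hn : n ≤ 216) : ∀ (rows : List ℕ) (w : ℕ) (c : ℕ → ZMod p),
    p * (w + n * (217 * p ^ 2)) < B →
    (∀ V ∈ rows, ∃ F : ℕ[X], F.natDegree ≤ n ∧ F.eval 1 ≤ w ∧ F.eval B = V ∧ pair n c F = 0) →
    elim n rows = true → ∀ t ≤ n, c t = 0 := by
  induction n with
  | zero =>
    intro rows w c hw hrows hel t ht
    rcases rows with _ | ⟨V, Vs⟩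
    · rw [elim_zero_nil] at hel; exact absurd hel (by simp)
    · rw [elim_zero_cons] at hel
      obtain ⟨F, hF, hF1, hFB, hp⟩ := hrows V (by simp)
      have hV : ¬ V % p = 0 := by
        intro h
        rw [h] at hel
        exact absurd hel (by decide)
      have hFC : F = C (F.coeff 0) := eq_C_of_natDegree_le_zero hF
      have hV2 : V = F.coeff 0 := by
        rw [← hFB, hFC]; simp
      have : (F.coeff 0 : ZMod p) ≠ 0 := by
        rw [← hV2]
        intro h
        rw [ZMod.natCast_eq_zero_iff] at h
        exact hV (Nat.mod_eq_zero_of_dvd h)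
      have h0 : t = 0 := by omega
      subst h0
      unfold pair at hp
      rw [Finset.sum_range_one] at hp
      exact (mul_eq_zero.1 hp).resolve_right this
  | succ n ih =>
    intro rows w c hw hrows hel t ht
    rcases rows with _ | ⟨V, Vs⟩
    · rw [elim_succ_nil] at hel; exact absurd hel (by simp)
    · rw [elim_succ_cons] at hel
      set v := (V % B % p) ^ (p - 2) % p with hv
      have hvp : v < p := Nat.mod_lt _ (by norm_num)
      set R := red (n + 2) (v * V) with hR
      have hR1 : R % B = 1 := by
        by_contra h
        have : Nat.beq (R % B) 1 = false := by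
          rw [← Bool.not_eq_true, Nat.beq_eq]; exact h
        rw [this] at hel
        exact absurd hel (by simp)
      have hel' : elim n (Vs.map (step R)) = true := by
        have : Nat.beq (R % B) 1 = true := by rw [Nat.beq_eq]; exact hR1
        rw [this] at hel
        exact hel
      obtain ⟨F, hF, hF1, hFB, hp⟩ := hrows V (by simp)
      have hwB : p * w < B := lt_of_le_of_lt (Nat.mul_le_mul_left _ (Nat.le_add_right _ _)) hw
      have hwB' : v * w < B := lt_of_le_of_lt (Nat.mul_le_mul_right _ hvp.le) hwB
      obtain ⟨G, hG, hG1, hGB, hGc⟩ := red_spec (n + 1) (C v * F)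
        ((natDegree_C_mul_le _ _).trans hF)
        (by
          rw [eval_mul, eval_C]
          exact lt_of_le_of_lt (Nat.mul_le_mul_left _ hF1) hwB')
      have hGB' : G.eval B = R := by
        rw [hGB, eval_mul, eval_C, hFB]
      have hGp : pair (n + 1) c G = 0 := by
        unfold pair at hp ⊢
        have : ∀ i, c i * (G.coeff i : ZMod p) = (v : ZMod p) * (c i * (F.coeff i : ZMod p)) := by
          intro i
          rw [hGc, coeff_C_mul, Nat.cast_mul]; ring
        simp_rw [this]
        rw [← Finset.mul_sum, hp, mul_zero]
      have hG1B : G.eval 1 < B := by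
        refine lt_of_le_of_lt hG1 ?_
        have : (n + 1 + 1) * p ≤ 217 * 65521 := by
          have : n + 1 + 1 ≤ 217 := by omega
          exact Nat.mul_le_mul_right _ this
        exact lt_of_le_of_lt this (by norm_num)
      have hG0 : G.coeff 0 = 1 := by
        rw [← digit_zero G hG1B, hGB', hR1]
      -- the remaining rows
      have key : ∀ t ≤ n, c (t + 1) = 0 := by
        refine ih (by omega) (Vs.map (step R)) (w + 217 * p ^ 2) (fun t => c (t + 1)) ?_ ?_ hel'
        · refine lt_of_le_of_lt (Nat.mul_le_mul_left _ (le_of_eq ?_)) hw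
          push_cast
          ring
        · intro W' hW'
          obtain ⟨W, hW, rfl⟩ := List.mem_map.1 hW'
          obtain ⟨H, hH, hH1, hHB, hHp⟩ := hrows W (by simp [hW])
          set m := p - W % B % p with hm
          have hmp : m ≤ p := Nat.sub_le _ _
          set K : ℕ[X] := H + C m * G with hK
          have hK1 : K.eval 1 ≤ w + 217 * p ^ 2 := by
            rw [hK, eval_add, eval_mul, eval_C]
            have h1 : m * G.eval 1 ≤ p * (217 * p) :=
              Nat.mul_le_mul hmp (hG1.trans (Nat.mul_le_mul_right _ (by omega)))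
            have h2 : p * (217 * p) = 217 * p ^ 2 := by ring
            omega
          have hwB2 : w + 217 * p ^ 2 < B := by
            refine lt_of_le_of_lt ?_ hw
            have : w + 217 * p ^ 2 ≤ w + (n + 1) * (217 * p ^ 2) := by nlinarith
            have h3 : w + (n + 1) * (217 * p ^ 2) ≤ p * (w + (n + 1) * (217 * p ^ 2)) :=
              Nat.le_mul_of_pos_left _ (by norm_num)
            exact this.trans h3
          have hK1B : K.eval 1 < B := lt_of_le_of_lt hK1 hwB2
          have hKB : K.eval B = W + m * R := by
            rw [hK, eval_add, eval_mul, eval_C, hHB, hGB']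
          have hKp : pair (n + 1) c K = 0 := by
            unfold pair at hHp hGp ⊢
            have : ∀ i, c i * (K.coeff i : ZMod p)
                = c i * (H.coeff i : ZMod p) + (m : ZMod p) * (c i * (G.coeff i : ZMod p)) := by
              intro i
              rw [hK, coeff_add, coeff_C_mul]; push_cast; ring
            simp_rw [this]
            rw [Finset.sum_add_distrib, ← Finset.mul_sum, hHp, hGp, mul_zero, add_zero]
          have hK0 : (K.coeff 0 : ZMod p) = 0 := by
            have hH0 : W % B = H.coeff 0 := by
              rw [← hHB]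
              exact digit_zero H (lt_of_le_of_lt hH1 (lt_of_le_of_lt (Nat.le_add_right _ _) hwB2))
            rw [hK, coeff_add, coeff_C_mul, hG0, mul_one, hm, hH0]
            have hlt : H.coeff 0 % p < p := Nat.mod_lt _ (by norm_num)
            rw [Nat.cast_add, Nat.cast_sub hlt.le, ZMod.natCast_mod, ZMod.natCast_self]
            ring
          refine ⟨K.divX, ?_, (eval_one_divX K).trans hK1, ?_, ?_⟩
          · refine natDegree_divX_le K n ?_
            rw [hK]
            exact (natDegree_add_le _ _).trans (max_le hH ((natDegree_C_mul_le _ _).trans hG))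
          · rw [← digit_rest K hK1B, hKB]; rfl
          · unfold pair at hKp ⊢
            rw [Finset.sum_range_succ' _ (n + 1), hK0, mul_zero, add_zero] at hKp
            simpa [coeff_divX] using hKp
      have h0 : c 0 = 0 := by
        unfold pair at hGp
        rw [Finset.sum_range_succ' _ (n + 1), hG0] at hGp
        rw [Finset.sum_eq_zero] at hGp
        · simpa using hGp
        · intro i hi
          rw [key i (by have := Finset.mem_range.1 hi; omega), zero_mul]
      rcases t with _ | t
      · exact h0
      · exact key t (by omega)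

end Pool.Agent.Q78.NN
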