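import Pool.Agent.Q78.NN.Data

/-!
# The rank of the matrix over the complex numbers
-/

set_option autoImplicit false

namespace Pool.Agent.Q78.NN

open Polynomial

/-- Independence of the columns of an integral matrix modulo a prime implies independence over
the complex numbers. -/
theorem transfer {σ τ : Type} [Fintype σ] [Fintype τ] [DecidableEq σ] [DecidableEq τ]
    (q : ℕ) [Fact q.Prime] (M : Matrix σ τ ℕ)
    (hp : ∀ c : τ → ZMod q, (∀ s, ∑ t, c t * (M s t : ZMod q) = 0) → c = 0)
    (c : τ → ℂ) (hc : ∀ s, ∑ t, c t * (M s t : ℂ) = 0) : c = 0 := by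
  classical
  let Mp : Matrix σ τ (ZMod q) := M.map (Nat.cast)
  have hker : LinearMap.ker (Matrix.mulVecLin Mp) = ⊥ := by
    rw [LinearMap.ker_eq_bot']
    intro v hv
    apply hp
    intro s
    have := congrFun hv s
    simp only [Matrix.mulVecLin_apply, Matrix.mulVec, dotProduct, Pi.zero_apply] at this
    rw [← this]
    exact Finset.sum_congr rfl fun t _ => mul_comm _ _
  obtain ⟨g, hg⟩ := LinearMap.exists_leftInverse_of_injective _ hker
  let L : Matrix τ σ (ZMod q) := LinearMap.toMatrix' g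
  have hL : L * Mp = 1 := by
    have h1 : Mp = LinearMap.toMatrix' (Matrix.mulVecLin Mp) := by
      rw [← Matrix.toLin'_apply', LinearMap.toMatrix'_toLin']
    rw [h1, ← LinearMap.toMatrix'_comp, hg, LinearMap.toMatrix'_id]
  let L' : Matrix τ σ ℤ := fun t s => ((L t s).val : ℤ)
  let M' : Matrix σ τ ℤ := fun s t => (M s t : ℤ)
  have hD : (L' * M').map (Int.castRingHom (ZMod q)) = 1 := by
    rw [← hL, Matrix.map_mul]
    congr 1
    · ext t s
      change Int.castRingHom (ZMod q) (L' t s) = L t s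
      simp [L']
    · ext s t
      change Int.castRingHom (ZMod q) (M' s t) = Mp s t
      simp [M', Mp]
  have hdet : (L' * M').det ≠ 0 := by
    intro h
    have h1 := congrArg (Int.castRingHom (ZMod q)) h
    rw [RingHom.map_det, RingHom.mapMatrix_apply, hD] at h1
    simp at h1
  have hdetC : ((L' * M').map (Int.castRingHom ℂ)).det ≠ 0 := by
    have : ((L' * M').map (Int.castRingHom ℂ)).det = Int.castRingHom ℂ (L' * M').det := by
      rw [RingHom.map_det, RingHom.mapMatrix_apply]
    rw [this]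
    simpa using hdet
  refine Matrix.eq_zero_of_mulVec_eq_zero hdetC ?_
  rw [Matrix.map_mul, ← Matrix.mulVec_mulVec]
  have : (M'.map (Int.castRingHom ℂ)).mulVec c = 0 := by
    ext s
    simp only [Matrix.mulVec, dotProduct, Matrix.map_apply, Pi.zero_apply]
    rw [← hc s]
    refine Finset.sum_congr rfl fun t _ => ?_
    simp [M', mul_comm]
  rw [this, Matrix.mulVec_zero]

/-- the coefficients of the five sextics -/
def W2 (j : Fin 5) (a : Fin 7) : ℕ := (W2L.getD j []).getD a 0

/-- the coefficients of the linear forms -/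
def lam (k : Fin 38) (j : Fin 5) : ℕ := (lamL.getD k []).getD j 0

theorem W2L_eq : W2L = List.ofFn fun j => List.ofFn (W2 j) := by decide
theorem lamL_eq : lamL = List.ofFn fun k => List.ofFn (lam k) := by decide

theorem dotP_ofFn {n : ℕ} (u : Fin n → ℕ) (v : Fin n → ℕ[X]) :
    dotP (List.ofFn u) (List.ofFn v) = ∑ i, C (u i) * v i := by
  induction n with
  | zero => simp [dotP]
  | succ n ih =>
    rw [List.ofFn_succ, List.ofFn_succ, dotP, ih, Fin.sum_univ_succ]

/-- the sextics -/
noncomputable def gF (j : Fin 5) : ℕ[X] := ∑ a : Fin 7, C (W2 j a) * (X + C (a : ℕ)) ^ 6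

/-- the forms of degree 36 -/
noncomputable def hF (k : Fin 38) : ℕ[X] := ∑ j : Fin 5, C (lam k j) * gF j ^ 6

/-- the derivatives with respect to the third layer -/
noncomputable def T1 (k : Fin 38) (j : Fin 5) : ℕ[X] := hF k ^ 5 * gF j ^ 6

/-- the derivatives with respect to the second layer -/
noncomputable def T2 (j : Fin 5) (a : Fin 7) : ℕ[X] :=
  (∑ k : Fin 38, C (lam k j) * hF k ^ 5) * gF j ^ 5 * (X + C (a : ℕ)) ^ 6

theorem L6P_eq : L6P = List.ofFn fun a : Fin 7 => (X + C (a : ℕ)) ^ 6 := by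
  simp [L6P, List.range_succ, List.ofFn_succ]
  norm_num

theorem gP_eq : gP = List.ofFn gF := by
  unfold gP
  rw [W2L_eq, List.map_ofFn, L6P_eq]
  refine congrArg List.ofFn (funext fun j => ?_)
  simp only [Function.comp_apply, dotP_ofFn, gF]

theorem hP_eq : hP = List.ofFn hF := by
  unfold hP
  rw [lamL_eq, List.map_ofFn, gP_eq, List.map_ofFn]
  refine congrArg List.ofFn (funext fun k => ?_)
  simp only [Function.comp_apply, dotP_ofFn, hF]

theorem DP_eq : DP = List.ofFn fun j : Fin 5 => ∑ k : Fin 38, C (lam k j) * hF k ^ 5 := by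
  unfold DP
  rw [hP_eq, List.map_ofFn]
  have h : (List.range 5) = List.ofFn fun j : Fin 5 => (j : ℕ) := by decide
  rw [h, List.map_ofFn]
  refine congrArg List.ofFn (funext fun j => ?_)
  have h2 : lamL.map (fun l => l.getD (j : ℕ) 0) = List.ofFn fun k => lam k j := by
    rw [lamL_eq, List.map_ofFn]
    refine congrArg List.ofFn (funext fun k => ?_)
    fin_cases j <;> rfl
  simp only [Function.comp_apply, h2, dotP_ofFn]

theorem mem_zipWith_ofFn {α β γ : Type*} (f : α → β → γ) {n : ℕ} (u : Fin n → α) (v : Fin n → β)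
    {x : γ} (hx : x ∈ List.zipWith f (List.ofFn u) (List.ofFn v)) : ∃ i, x = f (u i) (v i) := by
  induction n with
  | zero => simp at hx
  | succ n ih =>
    rw [List.ofFn_succ, List.ofFn_succ, List.zipWith_cons_cons, List.mem_cons] at hx
    rcases hx with rfl | hx
    · exact ⟨0, rfl⟩
    · obtain ⟨i, hi⟩ := ih _ _ hx
      exact ⟨i.succ, hi⟩

theorem mem_rowsP (T : ℕ[X]) (hT : T ∈ rowsP) : (∃ k j, T = T1 k j) ∨ ∃ j a, T = T2 j a := by
  unfold rowsP at hT
  rw [List.mem_append] at hT
  rcases hT with hT | hT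
  · left
    rw [List.mem_flatMap] at hT
    obtain ⟨H, hH, hT⟩ := hT
    obtain ⟨h, hh, rfl⟩ := List.mem_map.1 hH
    rw [hP_eq, List.mem_ofFn] at hh
    obtain ⟨k, rfl⟩ := hh
    obtain ⟨G, hG, rfl⟩ := List.mem_map.1 hT
    obtain ⟨g, hg, rfl⟩ := List.mem_map.1 hG
    rw [gP_eq, List.mem_ofFn] at hg
    obtain ⟨j, rfl⟩ := hg
    exact ⟨k, j, rfl⟩
  · right
    rw [List.mem_flatMap] at hT
    obtain ⟨E, hE, hT⟩ := hT
    obtain ⟨l, hl, rfl⟩ := List.mem_map.1 hT
    have hl' := List.mem_of_mem_take hl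
    rw [L6P_eq, List.mem_ofFn] at hl'
    obtain ⟨a, rfl⟩ := hl'
    unfold EP at hE
    rw [DP_eq, gP_eq, List.map_ofFn] at hE
    obtain ⟨j, rfl⟩ := mem_zipWith_ofFn _ _ _ hE
    exact ⟨j, a, rfl⟩

/-- **The tangent vectors span**, over the complex numbers. -/
theorem rank_complex (c : Fin 217 → ℂ)
    (h1 : ∀ k j, ∑ t : Fin 217, c t * ((T1 k j).coeff t : ℂ) = 0)
    (h2 : ∀ j a, ∑ t : Fin 217, c t * ((T2 j a).coeff t : ℂ) = 0) : c = 0 := by
  let M : Matrix ((Fin 38 × Fin 5) ⊕ (Fin 5 × Fin 7)) (Fin 217) ℕ := fun s t =>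
    Sum.elim (fun x => (T1 x.1 x.2).coeff t) (fun x => (T2 x.1 x.2).coeff t) s
  refine transfer p M ?_ c ?_
  · intro d hd
    have h := rank_modp (fun t => if h : t < 217 then d ⟨t, h⟩ else 0) ?_
    · ext t
      have := h t (by omega)
      simpa using this
    · intro T hT
      unfold pair
      rw [Finset.sum_range]
      rcases mem_rowsP T hT with ⟨k, j, rfl⟩ | ⟨j, a, rfl⟩
      · rw [← hd (Sum.inl (k, j))]
        exact Finset.sum_congr rfl fun t _ => by simp [M]
      · rw [← hd (Sum.inr (j, a))]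
        exact Finset.sum_congr rfl fun t _ => by simp [M]
  · rintro (⟨k, j⟩ | ⟨j, a⟩)
    · exact h1 k j
    · exact h2 j a

end Pool.Agent.Q78.NN
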